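import Pool.Agent.helper28.EG.SpecP

/-!
# p2x:PTL (MP_70a088_an): the coordinate is nearly affine on small balls (helper99)
-/

set_option autoImplicit false

open Complex Metric Set Filter Topology MeasureTheory
open WP (it)

noncomputable section

namespace EG

theorem PTL : PTL_stmt := by
  intro ν hν
  have hν0 : (0 : ℝ) < ν := by exact_mod_cast hν
  have hd : HasDerivAt (fun w : ℂ => ((1 + w) ^ ν)⁻¹) (-(ν : ℂ)) 0 := by
    have h1 : HasDerivAt (fun w : ℂ => 1 + w) 1 0 := (hasDerivAt_id (0 : ℂ)).const_add 1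
    have h2 := (h1.fun_pow ν).fun_inv (by simp)
    refine h2.congr_deriv ?_
    simp
  have h3 := hd.isLittleO
  have h4 := h3.def (show (0 : ℝ) < 1 / 10 * ν by positivity)
  obtain ⟨ε, hε, hε2⟩ := Metric.eventually_nhds_iff.1 h4
  refine ⟨min (1 / 10) (ε / 2), by positivity, min_le_left _ _, ?_⟩
  intro α p y z hα hy hz
  have hyp : y - p ≠ 0 := sub_ne_zero.2 hy
  have hypn : 0 < ‖y - p‖ := norm_pos_iff.2 hyp
  set w : ℂ := (z - y) / (y - p) with hw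
  have hwn : ‖w‖ = ‖z - y‖ / ‖y - p‖ := by rw [hw, norm_div]
  have hw1 : ‖w‖ ≤ min (1 / 10) (ε / 2) := by
    rw [hwn, div_le_iff₀ hypn]
    exact hz
  have hw2 : ‖w‖ < ε := by
    have := hw1.trans (min_le_right _ _)
    linarith
  have h5 := hε2 (show dist w 0 < ε by rwa [dist_zero_right])
  have hzp : z - p = (y - p) * (1 + w) := by
    rw [hw]
    field_simp
    ring
  have ht : PET_t α p ν z = PET_t α p ν y * ((1 + w) ^ ν)⁻¹ := by
    unfold PET_t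
    rw [hzp, mul_pow, ← mul_assoc, mul_inv]
    ring
  have h6 : PET_t α p ν z - PET_t α p ν y + ν * PET_t α p ν y * w =
      PET_t α p ν y * (((1 + w) ^ ν)⁻¹ - ((1 + (0 : ℂ)) ^ ν)⁻¹ - (w - 0) • (-(ν : ℂ))) := by
    rw [ht]
    simp
    ring
  rw [h6, norm_mul]
  have h7 : ‖((1 + w) ^ ν)⁻¹ - ((1 + (0 : ℂ)) ^ ν)⁻¹ - (w - 0) • (-(ν : ℂ))‖ ≤ 1 / 10 * ν * ‖w - 0‖ := h5
  rw [sub_zero] at h7 ⊢
  calc ‖PET_t α p ν y‖ * _ ≤ ‖PET_t α p ν y‖ * (1 / 10 * ν * ‖w‖) := mul_le_mul_of_nonneg_left h7 (norm_nonneg _)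
    _ = 1 / 10 * (ν * ‖PET_t α p ν y‖ * (‖z - y‖ / ‖y - p‖)) := by rw [hwn]; ring

end EG
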